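import Pool.Agent.H378R2.PG.Defs

set_option autoImplicit false

namespace Pool.Agent.H378R2.PG

open Finset Polynomial

theorem rho_le (f : ℤ[X]) (hd : f ≠ 0) : ∃ p₀ : ℕ, ∀ p : ℕ, p.Prime → p₀ ≤ p →
    rho f p ≤ f.natDegree := by
  classical
  refine ⟨f.leadingCoeff.natAbs + 1, ?_⟩
  intro p hp hp0
  haveI : Fact p.Prime := ⟨hp⟩
  have hlc : ((f.leadingCoeff : ℤ) : ZMod p) ≠ 0 := by
    intro h
    rw [ZMod.intCast_zmod_eq_zero_iff_dvd] at h
    have h1 : f.leadingCoeff ≠ 0 := leadingCoeff_ne_zero.mpr hd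
    have h2 := Int.natAbs_dvd_natAbs.mpr h
    have h3 := Nat.le_of_dvd (Int.natAbs_pos.mpr h1) h2
    rw [Int.natAbs_natCast] at h3
    omega
  have hne : f.map (Int.castRingHom (ZMod p)) ≠ 0 := by
    intro h
    apply hlc
    have h1 := congrArg (fun g : (ZMod p)[X] => g.coeff f.natDegree) h
    simp only [coeff_map, coeff_natDegree, coeff_zero, eq_intCast] at h1
    exact h1
  have h1 : rho f p ≤ (f.map (Int.castRingHom (ZMod p))).roots.toFinset.card := by
    unfold rho
    apply Finset.card_le_card_of_injOn (fun r : ℕ => (r : ZMod p))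
    · intro r hr
      simp only [Finset.coe_filter, Finset.mem_range, Set.mem_ofPred_eq] at hr
      simp only [Finset.mem_coe, Multiset.mem_toFinset]
      rw [mem_roots hne, IsRoot.def]
      have h2 : (f.map (Int.castRingHom (ZMod p))).eval ((r : ℕ) : ZMod p) =
          ((f.eval (r : ℤ) : ℤ) : ZMod p) := by
        have h3 := eval_map_apply (f := Int.castRingHom (ZMod p)) (p := f) (r : ℤ)
        simpa using h3
      rw [h2, ZMod.intCast_zmod_eq_zero_iff_dvd]
      exact hr.2
    · intro r hr r' hr' h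
      simp only [Finset.coe_filter, Finset.mem_range, Set.mem_ofPred_eq] at hr hr'
      simp only at h
      rw [ZMod.natCast_eq_natCast_iff'] at h
      rwa [Nat.mod_eq_of_lt hr.1, Nat.mod_eq_of_lt hr'.1] at h
  refine h1.trans ((Multiset.toFinset_card_le _).trans ?_)
  exact (card_roots' _).trans natDegree_map_le

theorem growth (f : ℤ[X]) (hd : 1 ≤ f.natDegree) : ∃ n₀ : ℕ, ∀ n : ℕ, n₀ ≤ n →
    (n : ℝ) < ((f.eval (n : ℤ)).natAbs : ℝ) ^ 2 := by
  have hinj : Function.Injective (Int.castRingHom ℝ) := Int.cast_injective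
  set g : ℝ[X] := f.map (Int.castRingHom ℝ) with hg
  have hgd : g.natDegree = f.natDegree := natDegree_map_eq_of_injective hinj f
  have hg0 : g ≠ 0 := by
    intro h
    rw [h, natDegree_zero] at hgd
    omega
  have hsq : (g ^ 2).natDegree = 2 * f.natDegree := by
    rw [natDegree_pow, hgd]
  have hlt : (X : ℝ[X]).degree < (g ^ 2).degree := by
    rw [degree_X, degree_eq_natDegree (pow_ne_zero 2 hg0), hsq]
    have : 1 < 2 * f.natDegree := by omega
    exact_mod_cast this
  have hlc : (g ^ 2 - X).leadingCoeff = (g ^ 2).leadingCoeff :=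
    leadingCoeff_sub_of_degree_lt hlt
  have hdeg : (g ^ 2 - X).degree = (g ^ 2).degree := degree_sub_eq_left_of_degree_lt hlt
  have ht := tendsto_atTop_of_leadingCoeff_nonneg (g ^ 2 - X)
    (by
      rw [hdeg]
      exact lt_trans (by rw [degree_X]; exact_mod_cast Nat.one_pos) hlt)
    (by rw [hlc, leadingCoeff_pow]; positivity)
  have h1 := (ht.comp tendsto_natCast_atTop_atTop).eventually_gt_atTop 0
  obtain ⟨n₀, h2⟩ := Filter.eventually_atTop.mp h1
  refine ⟨n₀, fun n hn => ?_⟩
  have h3 := h2 n hn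
  simp only [Function.comp_apply, eval_sub, eval_pow, eval_X] at h3
  have h4 : g.eval (n : ℝ) = ((f.eval (n : ℤ) : ℤ) : ℝ) := by
    have h5 := eval_map_apply (f := Int.castRingHom ℝ) (p := f) (n : ℤ)
    simpa [hg] using h5
  rw [h4] at h3
  have h6 : (((f.eval (n : ℤ)).natAbs : ℕ) : ℝ) ^ 2 = ((f.eval (n : ℤ) : ℤ) : ℝ) ^ 2 := by
    rw [Nat.cast_natAbs, Int.cast_abs, sq_abs]
  rw [h6]
  linarith

end Pool.Agent.H378R2.PG
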